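import Pool.Agent.H38R2.CG.Stubs

/-!
# Torsion of class groups of real quadratic fields: statements
-/

set_option autoImplicit false

namespace Pool.Agent.W627.LT

open Finset Filter NumberField Pool.Agent.H38R2.CG
open scoped Classical

/-- Number of the ideal classes of `K` that are killed by `l`. -/
noncomputable def tor (K : Type) [Field K] [NumberField K] (l : ℕ) : ℕ :=
  Nat.card {c : ClassGroup (𝓞 K) // c ^ l = 1}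

/-- The odd primes up to `y`. -/
def PQ (y : ℕ) : Finset ℕ := (Finset.Icc 3 y).filter Nat.Prime

/-- The odd primes up to `y` not dividing `d` modulo which `d` is a square. -/
def SQ (y d : ℕ) : Finset ℕ := (PQ y).filter (fun p => ¬ p ∣ d ∧ jacobiSym (d : ℤ) p = 1)

/-- For every `l ≥ 1` the quadratic field of the square root of `d` has at most
`D ^ (1/2 - 1/(2l)) * X ^ ε` ideal classes killed by `l`, where `D` is its discriminant. -/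
def Good (ε X : ℝ) (d : ℕ) : Prop := ∀ (K : Type) [Field K] [NumberField K],
  Module.finrank ℚ K = 2 → (∃ x : K, x ^ 2 = (d : K)) → ∀ l : ℕ, 1 ≤ l →
    (tor K l : ℝ) ≤ |(discr K : ℝ)| ^ (1 / 2 - 1 / (2 * l) : ℝ) * X ^ ε

/-- A: the final computation (real analysis only). -/
def S_A : Prop := ∀ C ε : ℝ, 0 < C → 0 < ε → ∃ A0 : ℝ, 1 ≤ A0 ∧ ∀ A : ℝ, A0 ≤ A →
  ∃ X0 : ℝ, 3 ≤ X0 ∧ ∀ X : ℝ, X0 ≤ X → ∀ (D s l : ℕ) (T : ℝ), 2 ≤ D → (D : ℝ) ≤ 4 * X ^ 2 →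
    1 ≤ l → 0 ≤ T → T ≤ C * √(D : ℝ) * Real.log D →
    (⌊Real.log X ^ A⌋₊ : ℝ) / (20 * Real.log ⌊Real.log X ^ A⌋₊) ≤ s →
    (∀ k : ℕ, 4 * ((⌊Real.log X ^ A⌋₊ : ℝ) ^ (2 * k)) ^ l * Real.exp (l + 1) < D →
      T * (s.choose k : ℝ) ≤ C * √(D : ℝ) * Real.log D) →
    T ≤ (D : ℝ) ^ (1 / 2 - 1 / (2 * l) : ℝ) * X ^ ε

/-- P: Chebyshev lower bound. -/
def S_P : Prop := ∃ y0 : ℕ, ∀ y : ℕ, y0 ≤ y → (y : ℝ) / (2 * Real.log y) ≤ (PQ y).card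

/-- E: second moment of the character sum over small primes along an arithmetic progression. -/
def S_E : Prop := ∀ (a q H y : ℕ) (P : Finset ℕ),
  (∀ p ∈ P, p.Prime ∧ p ≠ 2 ∧ p ≤ y ∧ ¬ p ∣ q) → P.card * y ^ 2 ≤ H →
  ((range H).filter (fun j => 2 * ∑ p ∈ P, jacobiSym ((a + q * j : ℕ) : ℤ) p ≤
    -(P.card : ℤ))).card * P.card ≤ 8 * H

/-- F: the discriminant and the splitting of primes in terms of `d`. -/
def S_F : Prop := P_N0d → ∀ (K : Type) [Field K] [NumberField K] (d : ℕ), 0 < d → ¬ IsSquare d →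
  Module.finrank ℚ K = 2 → (∃ x : K, x ^ 2 = (d : K)) →
  ∃ D : ℕ, IsFund D ∧ discr K = (D : ℤ) ∧ D ≤ 4 * d ∧
    ∀ p : ℕ, p.Prime → p ≠ 2 → ¬ p ∣ d → chi D p = jacobiSym (d : ℤ) p

/-- X: elements with prescribed argument. -/
def S_X : Prop := ∀ (K : Type) [Field K] [NumberField K] (D : ℕ) (e : Emb K D), 1 < D →
  ∀ l : ℕ, 1 ≤ l → ∀ g : K, g ≠ 0 → ∃ x : 𝓞 K, 0 < e.σ (x : K) ∧ 0 < e.τ (x : K) ∧
    abs ((l : ℝ) * Real.log (e.σ (x : K) / e.τ (x : K)) + Real.log (abs (e.σ g / e.τ g))) ≤ 1 / 2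

/-- C: no collision of powers. -/
def S_C : Prop := ∀ (K : Type) [Field K] [NumberField K] (P P' : ℕ → Ideal (𝓞 K))
  (s t : Finset ℕ), (∀ p ∈ s ∪ t, p.Prime ∧ P p ≠ P' p ∧ (P p).IsPrime ∧ (P' p).IsPrime ∧
    Ideal.absNorm (P p) = p ∧ Ideal.absNorm (P' p) = p ∧
    P p * P' p = Ideal.span {(p : 𝓞 K)}) → ∀ l : ℕ, 1 ≤ l → ∀ z : ℤ,
  (∏ p ∈ t, P p) ^ l * (∏ p ∈ s, P' p) ^ l = Ideal.span {(z : 𝓞 K)} → s = t

/-- K: the kernel of a pair of ideals without near collision. -/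
def S_K : Prop := ∀ (K : Type) [Field K] [NumberField K] (D : ℕ), IsFund D →
  Module.finrank ℚ K = 2 → discr K = (D : ℤ) → ∀ (e : Emb K D) (A B : Ideal (𝓞 K)), A ≠ ⊥ →
  (∀ x ∈ XAB e A B, abs (Real.log (e.σ x / e.τ x)) < 1 → A = B) →
  KAB e A B ≤ if A = B then 1 else 0

/-- L: the bound for L(1, chi). -/
def S_L : Prop := P_N3a → ∃ C : ℝ, 0 < C ∧ ∀ D : ℕ, IsFund D → Lone D ≤ C * Real.log D

/-- H: the bound for the class number. -/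
def S_H : Prop := ∀ (K : Type) [Field K] [NumberField K] (D : ℕ), IsFund D →
  Module.finrank ℚ K = 2 → discr K = (D : ℤ) →
  (Nat.card (ClassGroup (𝓞 K)) : ℝ) ≤ 2 * √(D : ℝ) * Lone D

/-- M: split primes and torsion. -/
def S_M : Prop := ∀ (K : Type) [Field K] [NumberField K] (D : ℕ), IsFund D →
  Module.finrank ℚ K = 2 → discr K = (D : ℤ) → ∀ (y k l : ℕ), 1 ≤ l → ∀ S : Finset ℕ,
  (∀ p ∈ S, p.Prime ∧ p ≤ y ∧ chi D p = 1) →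
  4 * ((y : ℝ) ^ (2 * k)) ^ l * Real.exp (l + 1) < D →
  (tor K l : ℝ) * (S.card.choose k : ℝ) ≤ 2 * √(D : ℝ) * Lone D

/-- G: the criterion. -/
def S_G : Prop := ∀ ε : ℝ, 0 < ε → ∃ A0 : ℝ, 1 ≤ A0 ∧ ∀ A : ℝ, A0 ≤ A →
  ∃ X0 : ℝ, 3 ≤ X0 ∧ ∀ X : ℝ, X0 ≤ X → ∀ d : ℕ, 0 < d → ¬ IsSquare d → (d : ℝ) ≤ X ^ 2 →
    (⌊Real.log X ^ A⌋₊ : ℝ) / (20 * Real.log ⌊Real.log X ^ A⌋₊) ≤
      ((SQ ⌊Real.log X ^ A⌋₊ d).card : ℝ) → Good ε X d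

/-- R: in every real multiquadratic field about half of the quadratic subfields are good. -/
def S_R : Prop := ∀ ε : ℝ, 0 < ε → ∃ X0 : ℝ, ∀ X : ℝ, X0 ≤ X → ∀ (r : ℕ) (d : Fin r → ℕ),
  (∀ i, 0 < d i) → (∀ I : Finset (Fin r), I.Nonempty → ¬ IsSquare (∏ i ∈ I, d i)) →
  ((∏ i, d i : ℕ) : ℝ) ≤ X →
  2 ^ (r - 1) - 1 ≤ ((Finset.univ : Finset (Finset (Fin r))).filter
    (fun I => I.Nonempty ∧ Good ε X (∏ i ∈ I, d i))).card

/-- W: almost all members of every arithmetic progression of polylogarithmic length. -/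
def S_W : Prop := ∀ ε B : ℝ, 0 < ε → 0 < B → ∃ A X0 : ℝ, 0 < A ∧ ∀ X : ℝ, X0 ≤ X →
  ∀ a q H : ℕ, 1 ≤ q → ((a + q * H : ℕ) : ℝ) ≤ X → Real.log X ^ A ≤ H →
  (((range H).filter (fun j => ¬ IsSquare (a + q * j) ∧ ¬ Good ε X (a + q * j))).card : ℝ) ≤
    H / Real.log X ^ B

end Pool.Agent.W627.LT
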