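import Pool.Agent.W627.LT.Base
import Pool.Agent.W255.LT.LTP
import Pool.Agent.W904.LT.LTX
import Pool.Agent.W171.LT.LTC
import Pool.Agent.W233.LT.LTL
import Pool.Agent.W971.LT.LTG
import Pool.Agent.W576.LT.LTE
import Pool.Agent.W829.LT.LTA
import Pool.Agent.W428.LT.LTF
import Pool.Agent.W287.LT.LTK
import Pool.Agent.W520.LT.LTR
import Pool.Agent.W791.LT.LTW

set_option autoImplicit false

namespace Pool.Agent.W627.LT

open Pool.Agent.H38R2.CG

theorem sG : S_G :=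
  Pool.Agent.W971.LT.ltg T_N0d p3a Pool.Agent.W829.LT.lta Pool.Agent.W428.LT.LTF.ltf
    Pool.Agent.W233.LT.ltl (lth T_N0 p5 Pool.Agent.W287.LT.ltk)
    (ltm T_N0 pspl p5 Pool.Agent.W904.LTX.ltx Pool.Agent.W171.LT.ltc Pool.Agent.W287.LT.ltk)

theorem sR : S_R := Pool.Agent.W520.LT.ltr sG Pool.Agent.W255.LT.ltp

theorem sW : S_W := Pool.Agent.W791.LT.ltw sG Pool.Agent.W255.LT.ltp Pool.Agent.W576.LT.lte

end Pool.Agent.W627.LT
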