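import Pool.Agent.W428.LT.LTF
import Pool.Agent.W520.LT.LTR

set_option autoImplicit false

namespace Pool.Agent.W627.LT

open Finset Filter NumberField Pool.Agent.H38R2.CG Pool.Agent.W428.LT.LTF Pool.Agent.W520.LT
open scoped Classical

/-- N: many primes are inert in a fixed quadratic field. -/
def S_N : Prop := ∀ D : ℕ, IsFund D → ∃ y0 : ℕ, ∀ y : ℕ, y0 ≤ y →
  (y : ℝ) / (5 * Real.log y) ≤ (((PQ y).filter (fun p => chi D p = -1)).card : ℝ)

theorem fund_of (d : ℕ) (hd : 0 < d) (hsq : ¬ IsSquare d) : ∃ D : ℕ, IsFund D ∧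
    ∀ p : ℕ, p.Prime → p ≠ 2 → ¬ p ∣ d → chi D p = jacobiSym (d : ℤ) p := by
  obtain ⟨a, f, ha, hf, hdf, hasq⟩ := Nat.sq_mul_squarefree_of_pos hd
  have ha1 : 1 < a := by
    by_contra hcon
    have : a = 1 := by omega
    rw [this, mul_one] at hdf
    exact hsq ⟨f, by rw [← hdf, sq]⟩
  have ha4 : a % 4 ≠ 0 := by
    intro h
    have h4 : 2 * 2 ∣ a := Nat.dvd_of_mod_eq_zero h
    have := hasq 2 h4
    rw [Nat.isUnit_iff] at this
    omega
  by_cases h1 : a % 4 = 1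
  · refine ⟨a, ⟨ha1, Or.inl ⟨h1, hasq⟩⟩, ?_⟩
    intro p hp hp2 hpd
    have hcop : Nat.Coprime f p := by
      rw [Nat.coprime_comm, hp.coprime_iff_not_dvd]
      intro h
      apply hpd
      rw [← hdf, sq, mul_assoc]
      exact Dvd.dvd.mul_right h _
    rw [chi_odd _ hp hp2, ← hdf, jac_sq_mul f a p hcop]
  · refine ⟨4 * a, ⟨by omega, Or.inr ⟨a, rfl, by omega, hasq⟩⟩, ?_⟩
    intro p hp hp2 hpd
    have hcop : Nat.Coprime f p := by
      rw [Nat.coprime_comm, hp.coprime_iff_not_dvd]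
      intro h
      apply hpd
      rw [← hdf, sq, mul_assoc]
      exact Dvd.dvd.mul_right h _
    have hcop2 : Nat.Coprime 2 p := by
      rw [Nat.coprime_comm, hp.coprime_iff_not_dvd]
      intro h
      exact hp2 ((Nat.prime_dvd_prime_iff_eq hp Nat.prime_two).1 h)
    rw [chi_odd _ hp hp2, ← hdf, jac_sq_mul f a p hcop, show 4 * a = 2 ^ 2 * a by norm_num,
      jac_sq_mul 2 a p hcop2]

theorem asym2 (A : ℝ) (hA : 2 ≤ A) (y0 : ℕ) : ∃ X1 : ℝ, ∀ X : ℝ, X1 ≤ X →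
    y0 ≤ ⌊Real.log X ^ A⌋₊ ∧
    2 * ((⌊Real.log X ^ A⌋₊ : ℝ) / (20 * Real.log ⌊Real.log X ^ A⌋₊)) +
      Real.log X / Real.log 2 ≤
      (⌊Real.log X ^ A⌋₊ : ℝ) / (5 * Real.log ⌊Real.log X ^ A⌋₊) := by
  have ht : Tendsto (fun X : ℝ => ⌊Real.log X ^ A⌋₊) atTop atTop :=
    tendsto_nat_floor_atTop.comp
      ((tendsto_rpow_atTop (by linarith : (0 : ℝ) < A)).comp Real.tendsto_log_atTop)
  have hl : ∀ᶠ x : ℝ in atTop, ‖Real.log x‖ ≤ (1 / 40 : ℝ) * ‖x ^ (1 / 2 : ℝ)‖ :=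
    (isLittleO_log_rpow_atTop (by norm_num : (0 : ℝ) < 1 / 2)).bound (by norm_num)
  have hl2 : ∀ᶠ y : ℕ in atTop, ‖Real.log (y : ℝ)‖ ≤ (1 / 40 : ℝ) * ‖(y : ℝ) ^ (1 / 2 : ℝ)‖ :=
    tendsto_natCast_atTop_atTop.eventually hl
  have e1 := ht.eventually hl2
  have e2 := ht.eventually (eventually_ge_atTop (max y0 3))
  have e3 : ∀ᶠ X : ℝ in atTop, 1 ≤ Real.log X :=
    Real.tendsto_log_atTop.eventually (eventually_ge_atTop 1)
  obtain ⟨X1, h⟩ := (e1.and (e2.and e3)).exists_forall_of_atTop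
  refine ⟨X1, fun X hX => ?_⟩
  obtain ⟨h1, h2, h3⟩ := h X hX
  have hlt : Real.log X ^ A < (⌊Real.log X ^ A⌋₊ : ℝ) + 1 := Nat.lt_floor_add_one _
  clear e1 e2 e3 h ht hl hl2
  generalize ⌊Real.log X ^ A⌋₊ = y at h1 h2 hlt ⊢
  have hy0 : y0 ≤ y := (le_max_left _ _).trans h2
  have hy3 : 3 ≤ y := (le_max_right _ _).trans h2
  refine ⟨hy0, ?_⟩
  have hyr : (3 : ℝ) ≤ y := by exact_mod_cast hy3
  have hlogpos : 0 < Real.log y := Real.log_pos (by linarith)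
  have hs : Real.log y ≤ (1 / 40 : ℝ) * √(y : ℝ) := by
    rw [Real.norm_of_nonneg hlogpos.le, Real.norm_of_nonneg (by positivity),
      ← Real.sqrt_eq_rpow] at h1
    exact h1
  have hge : Real.log X ^ (2 : ℝ) ≤ Real.log X ^ A := Real.rpow_le_rpow_of_exponent_le h3 hA
  have h2sq : Real.log X ^ 2 ≤ 2 * y := by
    have : Real.log X ^ (2 : ℝ) = Real.log X ^ 2 := by norm_cast
    rw [this] at hge
    linarith
  have hsy : (√(y : ℝ)) ^ 2 = y := Real.sq_sqrt (by linarith)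
  have hsypos : 0 < √(y : ℝ) := Real.sqrt_pos.2 (by linarith)
  have hlX : Real.log X ≤ (3 / 2) * √(y : ℝ) := by
    by_contra hcc
    have h5 := pow_lt_pow_left₀ (not_le.1 hcc) (by positivity) two_ne_zero
    rw [mul_pow, hsy] at h5
    have h6 := h5.trans_le h2sq
    have h9 : ((3 / 2 : ℝ) ^ 2 - 2) * y < 0 := by rw [sub_mul]; exact sub_neg.2 h6
    have h10 : (0 : ℝ) ≤ ((3 / 2 : ℝ) ^ 2 - 2) * y :=
      mul_nonneg (by norm_num) (le_trans (by norm_num) hyr)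
    exact absurd h9 (not_lt.2 h10)
  have hlog2 : (0.69 : ℝ) < Real.log 2 := by
    have := Real.log_two_gt_d9
    linarith
  have hb : Real.log X / Real.log 2 ≤ (9 / 4) * √(y : ℝ) := by
    rw [div_le_iff₀ (by linarith)]
    nlinarith
  have hc : (9 / 4) * √(y : ℝ) ≤ (1 / 10) * ((y : ℝ) / Real.log y) := by
    rw [← mul_div_assoc, le_div_iff₀ hlogpos]
    nlinarith [mul_le_mul_of_nonneg_left hs hsypos.le]
  have hd1 : 2 * ((y : ℝ) / (20 * Real.log y)) = (1 / 10) * ((y : ℝ) / Real.log y) := by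
    field_simp
    norm_num
  have hd2 : (y : ℝ) / (5 * Real.log y) = (1 / 5) * ((y : ℝ) / Real.log y) := by
    field_simp
  rw [hd1, hd2]
  linarith

theorem count2 (y a b D : ℕ) (ha : 0 < a) (hb : 0 < b)
    (hD : ∀ p : ℕ, p.Prime → p ≠ 2 → ¬ p ∣ a → chi D p = jacobiSym (a : ℤ) p) :
    ((PQ y).filter (fun p => chi D p = -1)).card ≤ (SQ y b).card + (SQ y (a * b)).card +
      (a * b).primeFactors.card := by
  have hsub : (PQ y).filter (fun p => chi D p = -1) ⊆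
      (SQ y b ∪ SQ y (a * b)) ∪ (a * b).primeFactors := by
    intro p hp
    obtain ⟨hp, hchi⟩ := Finset.mem_filter.1 hp
    have hpp : p.Prime := (Finset.mem_filter.1 hp).2
    have hp3 : 3 ≤ p := (Finset.mem_Icc.1 (Finset.mem_filter.1 hp).1).1
    simp only [Finset.mem_union]
    by_cases hd : p ∣ a * b
    · right
      exact Nat.mem_primeFactors.2 ⟨hpp, hd, by positivity⟩
    · left
      have hda : ¬ p ∣ a := fun h => hd (h.mul_right b)
      have hdb : ¬ p ∣ b := fun h => hd (h.mul_left a)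
      have gb : Int.gcd (b : ℤ) (p : ℤ) = 1 := by
        rw [Int.gcd_natCast_natCast]
        exact ((Nat.Prime.coprime_iff_not_dvd hpp).2 hdb).symm
      have hm : jacobiSym ((a * b : ℕ) : ℤ) p = jacobiSym (a : ℤ) p * jacobiSym (b : ℤ) p := by
        push_cast
        exact jacobiSym.mul_left _ _ _
      have h1 : jacobiSym (a : ℤ) p = -1 := by
        rw [← hD p hpp (by omega) hda]; exact hchi
      rcases jacobiSym.eq_one_or_neg_one gb with h2 | h2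
      · left
        exact Finset.mem_filter.2 ⟨hp, hdb, h2⟩
      · right
        refine Finset.mem_filter.2 ⟨hp, hd, ?_⟩
        rw [hm, h1, h2]; norm_num
  calc _ ≤ ((SQ y b ∪ SQ y (a * b)) ∪ (a * b).primeFactors).card := Finset.card_le_card hsub
    _ ≤ (SQ y b ∪ SQ y (a * b)).card + (a * b).primeFactors.card := Finset.card_union_le _ _
    _ ≤ _ := by gcongr; exact Finset.card_union_le _ _

theorem twist (hG : S_G) (hN : S_N) (ε : ℝ) (hε : 0 < ε) (a : ℕ) (ha : 0 < a)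
    (hsa : ¬ IsSquare a) : ∃ X0 : ℝ, ∀ X : ℝ, X0 ≤ X → ∀ b : ℕ, 0 < b → ¬ IsSquare b →
    ¬ IsSquare (a * b) → ((a * b : ℕ) : ℝ) ≤ X → Good ε X b ∨ Good ε X (a * b) := by
  obtain ⟨D, hD, hchi⟩ := fund_of a ha hsa
  obtain ⟨y0, hy0⟩ := hN D hD
  obtain ⟨A0, hA0, hG⟩ := hG ε hε
  obtain ⟨X0, hX0, hG⟩ := hG (max A0 2) (le_max_left _ _)
  obtain ⟨X1, hX1⟩ := asym2 (max A0 2) (le_max_right _ _) y0
  generalize max A0 2 = A at hG hX1
  refine ⟨max X0 X1, fun X hX b hb hsb hsab habX => ?_⟩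
  have hXX0 : X0 ≤ X := (le_max_left _ _).trans hX
  obtain ⟨hy0', hy1⟩ := hX1 X ((le_max_right _ _).trans hX)
  have hX3 : 3 ≤ X := hX0.trans hXX0
  have hab0 : 0 < a * b := Nat.mul_pos ha hb
  have hX2 : X ≤ X ^ 2 := by nlinarith
  have hbX : (b : ℝ) ≤ X := by
    refine le_trans ?_ habX
    exact_mod_cast Nat.le_mul_of_pos_left b ha
  by_contra hcon
  push Not at hcon
  obtain ⟨c2, c3⟩ := hcon
  have g2 : ((SQ ⌊Real.log X ^ A⌋₊ b).card : ℝ) <
      (⌊Real.log X ^ A⌋₊ : ℝ) / (20 * Real.log ⌊Real.log X ^ A⌋₊) := by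
    by_contra h
    exact c2 (hG X hXX0 b hb hsb (hbX.trans hX2) (not_lt.1 h))
  have g3 : ((SQ ⌊Real.log X ^ A⌋₊ (a * b)).card : ℝ) <
      (⌊Real.log X ^ A⌋₊ : ℝ) / (20 * Real.log ⌊Real.log X ^ A⌋₊) := by
    by_contra h
    exact c3 (hG X hXX0 (a * b) hab0 hsab (habX.trans hX2) (not_lt.1 h))
  have h1 := hy0 _ hy0'
  have h2 : (((PQ ⌊Real.log X ^ A⌋₊).filter (fun p => chi D p = -1)).card : ℝ) ≤
      (SQ ⌊Real.log X ^ A⌋₊ b).card + (SQ ⌊Real.log X ^ A⌋₊ (a * b)).card +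
      (a * b).primeFactors.card := by
    exact_mod_cast count2 ⌊Real.log X ^ A⌋₊ a b D ha hb hchi
  have h3 := omega_le (a * b) hab0
  have h4 : Real.log ((a * b : ℕ) : ℝ) ≤ Real.log X :=
    Real.log_le_log (by exact_mod_cast hab0) habX
  have hlog2 : 0 < Real.log 2 := Real.log_pos one_lt_two
  have h5 : ((a * b).primeFactors.card : ℝ) ≤ Real.log X / Real.log 2 := by
    rw [le_div_iff₀ hlog2]
    exact h3.trans h4
  linarith

end Pool.Agent.W627.LT
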