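import Pool.Agent.W627.LT.N
import Pool.Agent.W627.LT.Tw
import Pool.Agent.H343R2.EH.Defs

set_option autoImplicit false

namespace Pool.Agent.W627.LT

open Finset Filter NumberField Pool.Agent.H38R2.CG
open scoped Classical

theorem ltn0 (hS : ∃ x0 : ℕ, ∀ x : ℕ, x0 ≤ x → ∀ q : ℕ, 1 ≤ q → (q : ℝ) ≤ Real.log x ^ 2 →
      ∀ a : ℕ, a < q → a.Coprime q →
      |H343E.piAP x q a - H343E.pi1 x / (Nat.totient q : ℝ)| ≤ x / Real.log x ^ 6)
    (hKR : P_KR) (hP : S_P) : S_N := by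
  intro D hD
  obtain ⟨N, hN2, hN⟩ := neg_card hKR D hD
  obtain ⟨x0, hx0⟩ := hS
  obtain ⟨y1, hy1⟩ := hP
  have hD1 : 1 < D := hD.1
  have : NeZero D := ⟨by omega⟩
  have ev1 : ∀ᶠ y : ℕ in atTop, max 1 (20 * (D : ℝ)) ≤ Real.log (y : ℝ) :=
    (Real.tendsto_log_atTop.comp tendsto_natCast_atTop_atTop).eventually (eventually_ge_atTop _)
  have ev2 : ∀ᶠ y : ℕ in atTop, ‖Real.log (y : ℝ)‖ ≤ (1 / 40 : ℝ) * ‖(y : ℝ)‖ := by
    have := (Real.isLittleO_log_id_atTop.bound (by norm_num : (0 : ℝ) < 1 / 40))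
    exact tendsto_natCast_atTop_atTop.eventually this
  obtain ⟨y2, hy2⟩ := (ev1.and (ev2.and ((eventually_ge_atTop x0).and
    (eventually_ge_atTop (max y1 3))))).exists_forall_of_atTop
  refine ⟨y2, fun y hy => ?_⟩
  obtain ⟨h1, h2, h3, h4⟩ := hy2 y hy
  have hy1' := hy1 y ((le_max_left _ _).trans h4)
  have hy3 : 3 ≤ y := (le_max_right _ _).trans h4
  have hyr : (3 : ℝ) ≤ y := by exact_mod_cast hy3
  set L := Real.log (y : ℝ) with hL
  have hL1 : 1 ≤ L := (le_max_left _ _).trans h1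
  have hLD : 20 * (D : ℝ) ≤ L := (le_max_right _ _).trans h1
  have hLy : 40 * L ≤ y := by
    rw [Real.norm_of_nonneg (by linarith), Real.norm_of_nonneg (by linarith)] at h2
    linarith
  have hDq : (D : ℝ) ≤ L ^ 2 := by nlinarith [(Nat.cast_nonneg D : (0 : ℝ) ≤ D)]
  -- counting
  let G : ZMod D → Finset ℕ := fun r =>
    (Icc 1 y).filter (fun p => p.Prime ∧ p ≡ r.val [MOD D])
  have hGr : ∀ r p, p ∈ G r → (p : ZMod D) = r := by
    intro r p hp
    have hp' := (Finset.mem_filter.mp hp).2.2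
    rw [← ZMod.natCast_eq_natCast_iff, ZMod.natCast_zmod_val] at hp'
    exact hp'
  have hdisj : (N : Set (ZMod D)).PairwiseDisjoint G := by
    intro r _ s _ hrs
    rw [Function.onFun, Finset.disjoint_left]
    intro p hp hp'
    exact hrs ((hGr r p hp).symm.trans (hGr s p hp'))
  have hsub : N.biUnion G ⊆ insert 2 ((PQ y).filter (fun p => chi D p = -1)) := by
    intro p hp
    obtain ⟨r, hr, hpr⟩ := Finset.mem_biUnion.mp hp
    obtain ⟨hp1, hp2, hp3⟩ := Finset.mem_filter.mp hpr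
    rw [Finset.mem_Icc] at hp1
    rw [Finset.mem_insert]
    by_cases h : p = 2
    · exact Or.inl h
    · right
      have := hp2.two_le
      refine Finset.mem_filter.mpr ⟨Finset.mem_filter.mpr ⟨Finset.mem_Icc.mpr ⟨by omega, hp1.2⟩,
        hp2⟩, (hN r hr).2 p hp1.1 (hGr r p hpr)⟩
  have hcard : ∑ r ∈ N, (G r).card ≤ ((PQ y).filter (fun p => chi D p = -1)).card + 1 := by
    rw [← Finset.card_biUnion hdisj]
    exact (Finset.card_le_card hsub).trans (Finset.card_insert_le _ _)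
  have hcardr : ∑ r ∈ N, ((G r).card : ℝ) ≤
      (((PQ y).filter (fun p => chi D p = -1)).card : ℝ) + 1 := by exact_mod_cast hcard
  have hphi : (0 : ℝ) < Nat.totient D := by
    exact_mod_cast Nat.totient_pos.mpr (by omega)
  have hphiD : (Nat.totient D : ℝ) ≤ D := by exact_mod_cast Nat.totient_le D
  have hNr : (N.card : ℝ) = Nat.totient D / 2 := by
    have : (2 : ℝ) * N.card = Nat.totient D := by exact_mod_cast hN2
    linarith
  have hlow : ∑ r ∈ N, ((G r).card : ℝ) ≥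
      N.card * (H343E.pi1 y / (Nat.totient D : ℝ) - y / L ^ 6) := by
    rw [ge_iff_le, ← nsmul_eq_mul, ← Finset.sum_const]
    refine Finset.sum_le_sum fun r hr => ?_
    have h5 := hx0 y h3 D (by omega) hDq r.val (ZMod.val_lt r) (hN r hr).1
    have h6 := (abs_le.mp h5).1
    have h7 : H343E.piAP y D r.val = ((G r).card : ℝ) := rfl
    rw [h7] at h6
    linarith
  have hpi : ((PQ y).card : ℝ) ≤ H343E.pi1 y := by
    unfold H343E.pi1
    have : PQ y ⊆ (Icc 1 y).filter (fun p => p.Prime) := by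
      intro p hp
      obtain ⟨hp1, hp2⟩ := Finset.mem_filter.mp hp
      rw [Finset.mem_Icc] at hp1
      exact Finset.mem_filter.mpr ⟨Finset.mem_Icc.mpr ⟨by omega, hp1.2⟩, hp2⟩
    exact_mod_cast Finset.card_le_card this
  have hmain : H343E.pi1 y / 2 - (Nat.totient D / 2) * (y / L ^ 6) ≤
      (((PQ y).filter (fun p => chi D p = -1)).card : ℝ) + 1 := by
    refine le_trans ?_ (hlow.le.trans hcardr)
    rw [hNr]
    have : (Nat.totient D : ℝ) / 2 * (H343E.pi1 y / (Nat.totient D : ℝ) - y / L ^ 6) =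
      H343E.pi1 y / 2 - (Nat.totient D / 2) * (y / L ^ 6) := by
      field_simp
    rw [this]
  have e1 : ((Nat.totient D : ℝ) / 2) * (y / L ^ 6) ≤ y / (40 * L) := by
    have hL5 : L ≤ L ^ 5 := by
      calc L = L ^ 1 := (pow_one L).symm
        _ ≤ L ^ 5 := pow_le_pow_right₀ hL1 (by norm_num)
    have hLpos : 0 < L := by linarith
    rw [div_mul_div_comm, div_le_div_iff₀ (by positivity) (by positivity)]
    have h8 : (Nat.totient D : ℝ) * 20 ≤ L ^ 5 := by linarith
    have h9 : (Nat.totient D : ℝ) * 20 * (2 * (y * L)) ≤ L ^ 5 * (2 * (y * L)) :=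
      mul_le_mul_of_nonneg_right h8 (by positivity)
    calc (Nat.totient D : ℝ) * y * (40 * L) = (Nat.totient D : ℝ) * 20 * (2 * (y * L)) := by ring
      _ ≤ L ^ 5 * (2 * (y * L)) := h9
      _ = y * (2 * L ^ 6) := by ring
  have e2 : 1 ≤ (y : ℝ) / (40 * L) := by
    rw [le_div_iff₀ (by linarith)]
    linarith
  have e3 : (y : ℝ) / (2 * L) = 20 * (y / (40 * L)) := by
    field_simp
    norm_num
  have e4 : (y : ℝ) / (5 * L) = 8 * (y / (40 * L)) := by
    field_simp
    norm_num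
  rw [e3] at hy1'
  rw [e4]
  linarith

end Pool.Agent.W627.LT
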