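import Pool.Agent.W627.LT.All
import Pool.Agent.W627.LT.N2
import Pool.Agent.H387R2.U3

set_option autoImplicit false

namespace Pool.Agent.W627.LT

open Pool.Agent.H38R2.CG

theorem sN : S_N := ltn0 Pool.Agent.H387R2.Uni.siegel T_KR Pool.Agent.W255.LT.ltp

theorem sT (ε : ℝ) (hε : 0 < ε) (a : ℕ) (ha : 0 < a) (hsa : ¬ IsSquare a) : ∃ X0 : ℝ,
    ∀ X : ℝ, X0 ≤ X → ∀ b : ℕ, 0 < b → ¬ IsSquare b →
    ¬ IsSquare (a * b) → ((a * b : ℕ) : ℝ) ≤ X → Good ε X b ∨ Good ε X (a * b) :=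
  twist sG sN ε hε a ha hsa

end Pool.Agent.W627.LT
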