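import Pool.Agent.W627.LT.M1

set_option autoImplicit false

namespace Pool.Agent.W627.LT

open Finset Filter NumberField Pool.Agent.H38R2.CG
open scoped Classical nonZeroDivisors

theorem exists_rep (hX : S_X) (K : Type) [Field K] [NumberField K] (D : ℕ) (hD : 1 < D)
    (e : Emb K D) (l : ℕ) (hl : 1 ≤ l) (c : ClassGroup (𝓞 K)) (hc : c ^ l = 1) :
    ∃ (A : nonZeroDivisors (Ideal (𝓞 K))) (γ : 𝓞 K), ClassGroup.mk0 A = c ∧
      (A : Ideal (𝓞 K)) ^ l = Ideal.span {γ} ∧ γ ≠ 0 ∧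
      abs (Real.log (abs (e.σ (γ : K) / e.τ (γ : K)))) ≤ 1 / 2 := by
  obtain ⟨I, rfl⟩ := ClassGroup.mk0_surjective c
  rw [← map_pow] at hc
  have hIl : ((I : Ideal (𝓞 K)) ^ l) ∈ nonZeroDivisors (Ideal (𝓞 K)) := pow_mem I.2 l
  have h1 : ClassGroup.mk0 (⟨(I : Ideal (𝓞 K)) ^ l, hIl⟩ : nonZeroDivisors (Ideal (𝓞 K))) = 1 := by
    rw [← hc]
    rfl
  rw [ClassGroup.mk0_eq_one_iff] at h1
  obtain ⟨g, hg⟩ := h1.principal
  have hg' : (I : Ideal (𝓞 K)) ^ l = Ideal.span {g} := hg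
  have hg0 : g ≠ 0 := by
    rintro rfl
    rw [Ideal.span_singleton_eq_bot.mpr rfl] at hg'
    exact nonZeroDivisors.ne_zero hIl hg'
  have hgK : (g : K) ≠ 0 := by exact_mod_cast hg0
  obtain ⟨x, hx1, hx2, hx3⟩ := hX K D e hD l hl (g : K) hgK
  have hx0 : x ≠ 0 := by
    rintro rfl
    simp at hx1
  have hspan : (Ideal.span {x} : Ideal (𝓞 K)) ∈ nonZeroDivisors (Ideal (𝓞 K)) := by
    refine mem_nonZeroDivisors_of_ne_zero ?_
    rw [Ne, Ideal.zero_eq_bot, Ideal.span_singleton_eq_bot]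
    exact hx0
  refine ⟨⟨Ideal.span {x}, hspan⟩ * I, x ^ l * g, ?_, ?_, ?_, ?_⟩
  · rw [map_mul]
    have : ClassGroup.mk0 (⟨Ideal.span {x}, hspan⟩ : nonZeroDivisors (Ideal (𝓞 K))) = 1 := by
      rw [ClassGroup.mk0_eq_one_iff]
      exact ⟨⟨x, rfl⟩⟩
    rw [this, one_mul]
  · change (Ideal.span {x} * (I : Ideal (𝓞 K))) ^ l = _
    rw [mul_pow, hg', Ideal.span_singleton_pow, Ideal.span_singleton_mul_span_singleton]
  · exact mul_ne_zero (pow_ne_zero _ hx0) hg0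
  · have hσg : e.σ (g : K) ≠ 0 := by rw [Ne, map_eq_zero]; exact hgK
    have hτg : e.τ (g : K) ≠ 0 := by rw [Ne, map_eq_zero]; exact hgK
    have hx1' := hx1.ne'
    have hx2' := hx2.ne'
    have e1 : e.σ ((x ^ l * g : 𝓞 K) : K) / e.τ ((x ^ l * g : 𝓞 K) : K) =
        (e.σ (x : K) / e.τ (x : K)) ^ l * (e.σ (g : K) / e.τ (g : K)) := by
      push_cast
      simp only [map_mul, map_pow, div_pow]
      field_simp
    have hxx : 0 < e.σ (x : K) / e.τ (x : K) := div_pos hx1 hx2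
    rw [e1, abs_mul, abs_pow, abs_of_pos hxx, Real.log_mul (by positivity) (by positivity),
      Real.log_pow]
    exact hx3

theorem ltm (h0 : P_N0) (hS : P_SPL) (h5 : P_N5) (hX : S_X) (hC : S_C) (hK : S_K) : S_M := by
  intro K _ _ D hD h2 hd y k l hl S hSp hlt
  obtain ⟨e⟩ := h0 K D hD h2 hd
  have hD1 : 1 < D := hD.1
  have hP : ∀ p : ℕ, ∃ P P' : Ideal (𝓞 K), (p.Prime ∧ chi D p = 1) →
      P ≠ P' ∧ P.IsPrime ∧ P'.IsPrime ∧ Ideal.absNorm P = p ∧ Ideal.absNorm P' = p ∧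
        P * P' = Ideal.span {(p : 𝓞 K)} := by
    intro p
    by_cases hp : p.Prime ∧ chi D p = 1
    · obtain ⟨P, P', h⟩ := (hS K D hD h2 hd p hp.1).1 hp.2
      exact ⟨P, P', fun _ => h⟩
    · exact ⟨⊥, ⊥, fun h => absurd h hp⟩
  choose P P' hPP using hP
  have hA : ∀ c : {c : ClassGroup (𝓞 K) // c ^ l = 1}, ∃ (A : nonZeroDivisors (Ideal (𝓞 K)))
      (γ : 𝓞 K), ClassGroup.mk0 A = c.1 ∧
      (A : Ideal (𝓞 K)) ^ l = Ideal.span {γ} ∧ γ ≠ 0 ∧
      abs (Real.log (abs (e.σ (γ : K) / e.τ (γ : K)))) ≤ 1 / 2 :=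
    fun c => exists_rep hX K D hD1 e l hl c.1 c.2
  choose A γ hA1 hA2 hA3 hA4 using hA
  have hprod : ∀ s : {s // s ∈ S.powersetCard k}, ∃ Q : nonZeroDivisors (Ideal (𝓞 K)),
      (Q : Ideal (𝓞 K)) = ∏ p ∈ s.1, P p := by
    intro s
    refine ⟨⟨∏ p ∈ s.1, P p, mem_nonZeroDivisors_of_ne_zero ?_⟩, rfl⟩
    rw [Finset.prod_ne_zero_iff]
    intro p hp h0
    have hpS : p ∈ S := (Finset.mem_powersetCard.mp s.2).1 hp
    obtain ⟨q1, q2, q3⟩ := hSp p hpS
    have := (hPP p ⟨q1, q3⟩).2.2.2.1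
    rw [h0, Ideal.zero_eq_bot, Ideal.absNorm_bot] at this
    exact q1.ne_zero this.symm
  choose Q hQ using hprod
  have hprime : ∀ p ∈ S, p.Prime ∧ P p ≠ P' p ∧ (P p).IsPrime ∧ (P' p).IsPrime ∧
      Ideal.absNorm (P p) = p ∧ Ideal.absNorm (P' p) = p ∧
      P p * P' p = Ideal.span {(p : 𝓞 K)} := by
    intro p hp
    obtain ⟨q1, q2, q3⟩ := hSp p hp
    exact ⟨q1, hPP p ⟨q1, q3⟩⟩
  have hcol : ∀ (c c' : {c : ClassGroup (𝓞 K) // c ^ l = 1})
      (s t : {s // s ∈ S.powersetCard k}), ∀ x ∈ XAB e ((A c * Q s : nonZeroDivisors (Ideal (𝓞 K))) :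
        Ideal (𝓞 K)) ((A c' * Q t : nonZeroDivisors (Ideal (𝓞 K))) : Ideal (𝓞 K)),
      abs (Real.log (e.σ x / e.τ x)) < 1 → c = c' ∧ s = t := by
    intro c c' s t x hx hxl
    have hsS := Finset.mem_powersetCard.mp s.2
    have htS := Finset.mem_powersetCard.mp t.2
    have hx' := hx
    rw [Submonoid.coe_mul, Submonoid.coe_mul, hQ, hQ] at hx'
    have hmem : ∀ p ∈ s.1 ∪ t.1, p ∈ S := by
      intro p hp
      rcases Finset.mem_union.mp hp with h | h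
      · exact hsS.1 h
      · exact htS.1 h
    have hst : s.1 = t.1 := collide hC K D hD1 e P P' y k l hl s.1 t.1
      (fun p hp => hprime p (hmem p hp))
      (fun p hp => (hSp p (hmem p hp)).2.1) hsS.2 htS.2 hlt (A c) (A c') (γ c) (γ c')
      (hA2 c) (hA2 c') (hA3 c) (hA3 c') (hA4 c) (hA4 c') x hx' hxl
    have hst' : s = t := Subtype.ext hst
    rw [hst'] at hx
    have hcl := class_eq_of_mem e (A c * Q t) (A c' * Q t) hx
    rw [map_mul, map_mul, hA1, hA1] at hcl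
    exact ⟨Subtype.ext (mul_right_cancel hcl), hst'⟩
  by_cases hne : Nonempty ({c : ClassGroup (𝓞 K) // c ^ l = 1} × {s // s ∈ S.powersetCard k})
  · have key := family_bound h0 h5 hK K D hD h2 hd e
      ({c : ClassGroup (𝓞 K) // c ^ l = 1} × {s // s ∈ S.powersetCard k})
      (fun i => A i.1 * Q i.2)
      (fun i j x hx hxl => Prod.ext (hcol i.1 j.1 i.2 j.2 x hx hxl).1
        (hcol i.1 j.1 i.2 j.2 x hx hxl).2) hne
    rw [Fintype.card_prod, Fintype.card_coe, Finset.card_powersetCard] at key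
    unfold tor
    rw [Nat.card_eq_fintype_card]
    push_cast at key
    exact key
  · have h00 : (Nat.card {c : ClassGroup (𝓞 K) // c ^ l = 1} : ℝ) *
        (S.card.choose k : ℝ) = 0 := by
      by_contra hcon
      apply hne
      have hc2 : S.card.choose k ≠ 0 := by
        intro h
        apply hcon
        rw [h]
        simp
      have : (S.powersetCard k).Nonempty := by
        rw [← Finset.card_pos, Finset.card_powersetCard]
        omega
      obtain ⟨s, hs⟩ := this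
      exact ⟨(⟨1, one_pow l⟩, ⟨s, hs⟩)⟩
    have hH := lth h0 h5 hK K D hD h2 hd
    unfold tor
    rw [h00]
    exact (Nat.cast_nonneg _).trans hH

end Pool.Agent.W627.LT
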