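import Pool.Agent.H38R2.CG.N0
import Pool.Agent.H38R2.CG.N0d
import Pool.Agent.H38R2.CG.SPL
import Pool.Agent.H38R2.CG.KR
import Pool.Agent.H38R2.CG.PV
import Pool.Agent.H38R2.CG.N2
import Pool.Agent.H38R2.CG.N3
import Pool.Agent.H38R2.CG.N3a
import Pool.Agent.H38R2.CG.N3b
import Pool.Agent.H38R2.CG.N4
import Pool.Agent.H38R2.CG.N4a
import Pool.Agent.H38R2.CG.N4b
import Pool.Agent.H38R2.CG.N5
import Pool.Agent.H38R2.CG.N5a
import Pool.Agent.H38R2.CG.N5b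
import Pool.Agent.H38R2.CG.KF
import Pool.Agent.W627.LT.M

set_option autoImplicit false

namespace Pool.Agent.W627.LT

open Pool.Agent.H38R2.CG

theorem pspl : P_SPL := T_SPL T_N0

theorem p3a : P_N3a := T_N3a T_KR T_PV

theorem p3 : P_N3 := T_N3 (T_N2 pspl) (T_N3b T_KR T_PV p3a)

theorem p4 : P_N4 := T_N4 T_N4a T_N4b

theorem p5 : P_N5 := T_N5 p3 p4 (T_N5a T_KF) (T_N5b T_KF p4)

end Pool.Agent.W627.LT
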