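import Pool.Agent.W627.LT.Stm

/-!
# The class number bound from the positivity inequality
-/

set_option autoImplicit false

namespace Pool.Agent.W627.LT

open Finset Filter NumberField Pool.Agent.H38R2.CG
open scoped Classical nonZeroDivisors

theorem class_eq_of_mem {K : Type} [Field K] [NumberField K] {D : ℕ} (e : Emb K D)
    (A B : nonZeroDivisors (Ideal (𝓞 K))) {x : K}
    (hx : x ∈ XAB e (A : Ideal (𝓞 K)) (B : Ideal (𝓞 K))) :
    ClassGroup.mk0 A = ClassGroup.mk0 B := by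
  obtain ⟨h1, h2, h3⟩ := hx
  rw [ClassGroup.mk0_eq_mk0_iff_exists_fraction_ring K]
  refine ⟨x, ?_, h3⟩
  rintro rfl
  rw [map_zero] at h1
  exact lt_irrefl _ h1

/-- general bound: a family of ideals without near collisions -/
theorem family_bound (h0 : P_N0) (h5 : P_N5) (hK : S_K) (K : Type) [Field K] [NumberField K]
    (D : ℕ) (hD : IsFund D) (h2 : Module.finrank ℚ K = 2) (hd : discr K = (D : ℤ))
    (e : Emb K D) (ι : Type) [Fintype ι] (A : ι → nonZeroDivisors (Ideal (𝓞 K)))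
    (hcol : ∀ i j : ι, ∀ x ∈ XAB e (A i : Ideal (𝓞 K)) (A j : Ideal (𝓞 K)),
      abs (Real.log (e.σ x / e.τ x)) < 1 → i = j) (hne : Nonempty ι) :
    (Fintype.card ι : ℝ) ≤ 2 * √(D : ℝ) * Lone D := by
  have h := (h5 K D hD h2 hd e ι A (fun _ => 1) (fun _ => zero_le_one)).1
  simp only [one_mul, sum_const, card_univ, nsmul_eq_mul, mul_one] at h
  have hA0 : ∀ i, (A i : Ideal (𝓞 K)) ≠ ⊥ := fun i => nonZeroDivisors.coe_ne_zero (A i)
  have hone : ∀ i j : ι, (A i : Ideal (𝓞 K)) = (A j : Ideal (𝓞 K)) → i = j := by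
    intro i j hij
    refine hcol i j 1 ⟨by rw [map_one]; exact one_pos, by rw [map_one]; exact one_pos, ?_⟩ ?_
    · rw [FractionalIdeal.spanSingleton_one, one_mul, hij]
    · rw [map_one, map_one, div_one, Real.log_one, abs_zero]; exact one_pos
  have hk : ∀ i j : ι, KAB e (A i : Ideal (𝓞 K)) (A j : Ideal (𝓞 K)) ≤ if i = j then 1 else 0 := by
    intro i j
    refine (hK K D hD h2 hd e _ _ (hA0 i) fun x hx hx1 => by rw [hcol i j x hx hx1]).trans ?_
    by_cases hij : i = j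
    · subst hij; simp
    · rw [if_neg hij, if_neg fun h => hij (hone i j h)]
  have hs : ∑ i : ι, ∑ j : ι, KAB e (A i : Ideal (𝓞 K)) (A j : Ideal (𝓞 K)) ≤ Fintype.card ι := by
    refine (sum_le_sum fun i _ => sum_le_sum fun j _ => hk i j).trans ?_
    simp
  have hs0 : 0 ≤ ∑ i : ι, ∑ j : ι, KAB e (A i : Ideal (𝓞 K)) (A j : Ideal (𝓞 K)) := by
    refine sum_nonneg fun i _ => sum_nonneg fun j _ => ?_
    unfold KAB
    refine finsum_nonneg fun x => finsum_nonneg fun _ => ?_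
    unfold phi
    exact le_max_left _ _
  have hc : (0 : ℝ) < Fintype.card ι := by exact_mod_cast Fintype.card_pos
  have hDpos : (0 : ℝ) < √(D : ℝ) := Real.sqrt_pos.mpr (by have := hD.1; exact_mod_cast (by omega))
  have hL : 0 ≤ Lone D := by
    by_contra hneg
    push Not at hneg
    have h1 : 2 * √(D : ℝ) * Lone D * ∑ i : ι, ∑ j : ι, KAB e (A i : Ideal (𝓞 K))
        (A j : Ideal (𝓞 K)) ≤ 0 :=
      mul_nonpos_of_nonpos_of_nonneg (by nlinarith) hs0
    nlinarith
  have h3 : (Fintype.card ι : ℝ) ^ 2 ≤ 2 * √(D : ℝ) * Lone D * Fintype.card ι :=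
    h.trans (mul_le_mul_of_nonneg_left hs (by positivity))
  have h4 : (Fintype.card ι : ℝ) * Fintype.card ι ≤ (2 * √(D : ℝ) * Lone D) * Fintype.card ι := by
    rw [← pow_two]; exact h3
  exact le_of_mul_le_mul_right h4 hc

theorem lth (h0 : P_N0) (h5 : P_N5) (hK : S_K) : S_H := by
  intro K _ _ D hD h2 hd
  obtain ⟨e⟩ := h0 K D hD h2 hd
  choose A hA using (ClassGroup.mk0_surjective (R := 𝓞 K))
  have := family_bound h0 h5 hK K D hD h2 hd e (ClassGroup (𝓞 K)) A (by
    intro i j x hx _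
    have := class_eq_of_mem e (A i) (A j) hx
    rwa [hA, hA] at this) ⟨1⟩
  rw [Nat.card_eq_fintype_card]
  exact this

end Pool.Agent.W627.LT
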