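import Pool.Agent.W627.LT.H

set_option autoImplicit false

namespace Pool.Agent.W627.LT

open Finset Filter NumberField Pool.Agent.H38R2.CG
open scoped Classical nonZeroDivisors

/-- the real estimate -/
theorem real_est {S T N E Dr : ℝ} (hS : S ≠ 0) (hT : T ≠ 0) (hN : |S * T| ≤ N)
    (hlog : abs (Real.log (abs (S / T))) ≤ E) (hD : 4 * N * Real.exp E < Dr) : (S - T) ^ 2 < Dr := by
  have hST : 0 < |S / T| := abs_pos.mpr (div_ne_zero hS hT)
  have h1 : |S / T| ≤ Real.exp E := by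
    rw [← Real.exp_log hST]
    exact Real.exp_le_exp.mpr (abs_le.mp hlog).2
  have h2 : |T / S| ≤ Real.exp E := by
    have : |T / S| = |S / T|⁻¹ := by rw [← abs_inv, inv_div]
    rw [this, ← Real.exp_log hST, ← Real.exp_neg]
    exact Real.exp_le_exp.mpr (by have := (abs_le.mp hlog).1; linarith)
  have hN0 : 0 ≤ N := (abs_nonneg _).trans hN
  have h3 : S ^ 2 ≤ N * Real.exp E := by
    have : S ^ 2 = |S * T| * |S / T| := by
      rw [← abs_mul, show S * T * (S / T) = S ^ 2 by field_simp, abs_of_nonneg (sq_nonneg S)]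
    rw [this]
    exact mul_le_mul hN h1 (abs_nonneg _) hN0
  have h4 : T ^ 2 ≤ N * Real.exp E := by
    have : T ^ 2 = |S * T| * |T / S| := by
      rw [← abs_mul, show S * T * (T / S) = T ^ 2 by field_simp, abs_of_nonneg (sq_nonneg T)]
    rw [this]
    exact mul_le_mul hN h2 (abs_nonneg _) hN0
  nlinarith [sq_nonneg (S + T)]

theorem collide (hC : S_C) (K : Type) [Field K] [NumberField K] (D : ℕ) (hD : 1 < D)
    (e : Emb K D) (P P' : ℕ → Ideal (𝓞 K)) (y k l : ℕ) (hl : 1 ≤ l) (s t : Finset ℕ)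
    (hst : ∀ p ∈ s ∪ t, p.Prime ∧ P p ≠ P' p ∧ (P p).IsPrime ∧ (P' p).IsPrime ∧
      Ideal.absNorm (P p) = p ∧ Ideal.absNorm (P' p) = p ∧
      P p * P' p = Ideal.span {(p : 𝓞 K)}) (hy : ∀ p ∈ s ∪ t, p ≤ y)
    (hs : s.card = k) (ht : t.card = k)
    (hlt : 4 * ((y : ℝ) ^ (2 * k)) ^ l * Real.exp (l + 1) < D)
    (A B : Ideal (𝓞 K)) (γ δ : 𝓞 K) (hγ : A ^ l = Ideal.span {γ})
    (hδ : B ^ l = Ideal.span {δ}) (hγ0 : γ ≠ 0) (hδ0 : δ ≠ 0)
    (hγl : abs (Real.log (abs (e.σ (γ : K) / e.τ (γ : K)))) ≤ 1 / 2)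
    (hδl : abs (Real.log (abs (e.σ (δ : K) / e.τ (δ : K)))) ≤ 1 / 2) (x : K)
    (hx : x ∈ XAB e (A * ∏ p ∈ s, P p) (B * ∏ p ∈ t, P p))
    (hxl : |Real.log (e.σ x / e.τ x)| < 1) : s = t := by
  obtain ⟨hx1, hx2, hx3⟩ := hx
  set a := ∏ p ∈ s, P p with ha
  set a' := ∏ p ∈ s, P' p with ha'
  set b := ∏ p ∈ t, P p with hb
  set n := ∏ p ∈ s, p with hn
  set m := ∏ p ∈ t, p with hm
  have hnpos : 0 < n := Finset.prod_pos fun p hp => (hst p (mem_union_left _ hp)).1.pos
  have haa : a * a' = Ideal.span {(n : 𝓞 K)} := by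
    rw [ha, ha', ← Finset.prod_mul_distrib, hn, Nat.cast_prod, ← Ideal.prod_span_singleton]
    exact Finset.prod_congr rfl fun p hp => (hst p (mem_union_left _ hp)).2.2.2.2.2.2
  have hσδ : e.σ (δ : K) ≠ 0 := by
    rw [Ne, map_eq_zero]; exact_mod_cast hδ0
  have hτδ : e.τ (δ : K) ≠ 0 := by
    rw [Ne, map_eq_zero]; exact_mod_cast hδ0
  have hσγ : e.σ (γ : K) ≠ 0 := by
    rw [Ne, map_eq_zero]; exact_mod_cast hγ0
  have hτγ : e.τ (γ : K) ≠ 0 := by
    rw [Ne, map_eq_zero]; exact_mod_cast hγ0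
  have hδK : (δ : K) ≠ 0 := by exact_mod_cast hδ0
  -- the l-th power of the relation
  have h1 : FractionalIdeal.spanSingleton (nonZeroDivisors (𝓞 K)) (x ^ l * (γ : K) * (n : K) ^ l) =
      FractionalIdeal.spanSingleton (nonZeroDivisors (𝓞 K)) (δ : K) *
        ((b ^ l * a' ^ l : Ideal (𝓞 K)) : FractionalIdeal (nonZeroDivisors (𝓞 K)) K) := by
    have e1 : ((A * a : Ideal (𝓞 K)) : FractionalIdeal (nonZeroDivisors (𝓞 K)) K) ^ l *
        ((a' ^ l : Ideal (𝓞 K)) : FractionalIdeal (nonZeroDivisors (𝓞 K)) K) =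
        FractionalIdeal.spanSingleton (nonZeroDivisors (𝓞 K)) ((γ : K) * (n : K) ^ l) := by
      rw [← FractionalIdeal.coeIdeal_pow, ← FractionalIdeal.coeIdeal_mul, mul_pow, mul_assoc,
        ← mul_pow, haa, hγ, Ideal.span_singleton_pow, Ideal.span_singleton_mul_span_singleton,
        FractionalIdeal.coeIdeal_span_singleton]
      congr 1
    have e2 := congrArg (fun I => I ^ l *
      ((a' ^ l : Ideal (𝓞 K)) : FractionalIdeal (nonZeroDivisors (𝓞 K)) K)) hx3
    rw [mul_pow, mul_assoc, e1, FractionalIdeal.spanSingleton_pow,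
      FractionalIdeal.spanSingleton_mul_spanSingleton] at e2
    rw [mul_assoc, e2, ← FractionalIdeal.coeIdeal_pow, ← FractionalIdeal.coeIdeal_mul, mul_pow,
      hδ, mul_assoc, FractionalIdeal.coeIdeal_mul, FractionalIdeal.coeIdeal_span_singleton]
  set w : K := x ^ l * (γ : K) * (n : K) ^ l / (δ : K) with hw
  have h2 : FractionalIdeal.spanSingleton (nonZeroDivisors (𝓞 K)) w =
      ((b ^ l * a' ^ l : Ideal (𝓞 K)) : FractionalIdeal (nonZeroDivisors (𝓞 K)) K) := by
    have e3 : FractionalIdeal.spanSingleton (nonZeroDivisors (𝓞 K)) (δ : K) *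
        FractionalIdeal.spanSingleton (nonZeroDivisors (𝓞 K)) w =
        FractionalIdeal.spanSingleton (nonZeroDivisors (𝓞 K)) (δ : K) *
        ((b ^ l * a' ^ l : Ideal (𝓞 K)) : FractionalIdeal (nonZeroDivisors (𝓞 K)) K) := by
      rw [← h1, FractionalIdeal.spanSingleton_mul_spanSingleton]
      congr 1
      rw [hw]
      field_simp
    have hne : FractionalIdeal.spanSingleton (nonZeroDivisors (𝓞 K)) (δ : K) ≠ 0 :=
      FractionalIdeal.spanSingleton_ne_zero_iff.mpr hδK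
    exact mul_left_cancel₀ hne e3
  have h3 : w ∈ ((b ^ l * a' ^ l : Ideal (𝓞 K)) :
      FractionalIdeal (nonZeroDivisors (𝓞 K)) K) := by
    rw [← h2]
    exact FractionalIdeal.mem_spanSingleton_self _ _
  obtain ⟨z, hz, hzw⟩ := (FractionalIdeal.mem_coeIdeal _).mp h3
  have hzw' : (z : K) = w := hzw
  have h4 : b ^ l * a' ^ l = Ideal.span {z} := by
    have h4' : ((b ^ l * a' ^ l : Ideal (𝓞 K)) : FractionalIdeal (nonZeroDivisors (𝓞 K)) K) =
        ((Ideal.span {z} : Ideal (𝓞 K)) : FractionalIdeal (nonZeroDivisors (𝓞 K)) K) := by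
      rw [← h2, FractionalIdeal.coeIdeal_span_singleton, hzw]
    exact FractionalIdeal.coeIdeal_injective h4'
  -- the norm
  have hnb : Ideal.absNorm b = m := by
    rw [hb, map_prod, hm]
    exact Finset.prod_congr rfl fun p hp => (hst p (mem_union_right _ hp)).2.2.2.2.1
  have hna : Ideal.absNorm a' = n := by
    rw [ha', map_prod, hn]
    exact Finset.prod_congr rfl fun p hp => (hst p (mem_union_left _ hp)).2.2.2.2.2.1
  have h5 : (Algebra.norm ℤ z).natAbs = m ^ l * n ^ l := by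
    rw [← Ideal.absNorm_span_singleton, ← h4, map_mul, map_pow, map_pow, hnb, hna]
  have hmy : m ≤ y ^ k := by
    rw [hm, ← ht]
    exact Finset.prod_le_pow_card _ _ _ fun p hp => hy p (mem_union_right _ hp)
  have hny : n ≤ y ^ k := by
    rw [hn, ← hs]
    exact Finset.prod_le_pow_card _ _ _ fun p hp => hy p (mem_union_left _ hp)
  have h6 : |e.σ (z : K) * e.τ (z : K)| ≤ ((y : ℝ) ^ (2 * k)) ^ l := by
    rw [← e.nrm, ← Algebra.coe_norm_int]
    have e4 : |(((Algebra.norm ℤ z : ℤ) : ℚ) : ℝ)| = (((Algebra.norm ℤ z).natAbs : ℕ) : ℝ) := by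
      rw [Nat.cast_natAbs]
      push_cast
      rfl
    rw [e4, h5]
    have e5 : m ^ l * n ^ l ≤ (y ^ (2 * k)) ^ l := by
      rw [← mul_pow, two_mul, pow_add]
      exact Nat.pow_le_pow_left (Nat.mul_le_mul hmy hny) l
    exact_mod_cast e5
  have hz0 : (z : K) ≠ 0 := by
    rw [hzw', hw]
    have hx0 : x ≠ 0 := by
      rintro rfl
      rw [map_zero] at hx1
      exact lt_irrefl _ hx1
    have hn0 : (n : K) ≠ 0 := by exact_mod_cast hnpos.ne'
    have hγK : (γ : K) ≠ 0 := by exact_mod_cast hγ0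
    exact div_ne_zero (mul_ne_zero (mul_ne_zero (pow_ne_zero _ hx0) hγK) (pow_ne_zero _ hn0)) hδK
  have hσz : e.σ (z : K) ≠ 0 := by rw [Ne, map_eq_zero]; exact hz0
  have hτz : e.τ (z : K) ≠ 0 := by rw [Ne, map_eq_zero]; exact hz0
  have h7 : abs (Real.log (abs (e.σ (z : K) / e.τ (z : K)))) ≤ (l : ℝ) + 1 := by
    have hnr : (n : ℝ) ≠ 0 := by exact_mod_cast hnpos.ne'
    have e6 : e.σ (z : K) / e.τ (z : K) = (e.σ x / e.τ x) ^ l * (e.σ (γ : K) / e.τ (γ : K)) /
        (e.σ (δ : K) / e.τ (δ : K)) := by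
      rw [hzw', hw]
      have hx1' := hx1.ne'
      have hx2' := hx2.ne'
      simp only [map_div₀, map_mul, map_pow, map_natCast, div_pow]
      field_simp
    have hxx : 0 < e.σ x / e.τ x := div_pos hx1 hx2
    have e7 : Real.log (abs (e.σ (z : K) / e.τ (z : K))) = l * Real.log (e.σ x / e.τ x) +
        Real.log (abs (e.σ (γ : K) / e.τ (γ : K))) - Real.log (abs (e.σ (δ : K) / e.τ (δ : K))) := by
      rw [e6, abs_div, abs_mul, abs_pow, abs_of_pos hxx,
        Real.log_div (by positivity) (by positivity), Real.log_mul (by positivity) (by positivity),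
        Real.log_pow]
    rw [e7]
    have e8 : |(l : ℝ) * Real.log (e.σ x / e.τ x)| ≤ l := by
      rw [abs_mul, Nat.abs_cast]
      exact mul_le_of_le_one_right (Nat.cast_nonneg l) hxl.le
    have := abs_le.mp e8
    have := abs_le.mp hγl
    have := abs_le.mp hδl
    rw [abs_le]
    constructor <;> linarith
  have h8 := real_est hσz hτz h6 h7 hlt
  obtain ⟨u, v, huv, hu1, hu2⟩ := e.int1 z
  have hDr : (0 : ℝ) < D := by exact_mod_cast (by omega : 0 < D)
  have hv : v = 0 := by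
    by_contra hv
    have e9 : (e.σ (z : K) - e.τ (z : K)) ^ 2 = (v : ℝ) ^ 2 * D := by
      rw [hu1, hu2]
      have : √(D : ℝ) ^ 2 = D := Real.sq_sqrt hDr.le
      calc ((u + v * √(D : ℝ)) / 2 - (u - v * √(D : ℝ)) / 2) ^ 2 = (v : ℝ) ^ 2 * √(D : ℝ) ^ 2 := by
            ring
        _ = _ := by rw [this]
    have e10 : (1 : ℝ) ≤ (v : ℝ) ^ 2 := by
      have : (1 : ℤ) ≤ v ^ 2 := Int.one_le_abs hv |>.trans (by nlinarith [abs_nonneg v, sq_abs v, Int.one_le_abs hv]) 
      exact_mod_cast this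
    rw [e9] at h8
    nlinarith
  rw [hv] at huv hu1
  obtain ⟨u', hu'⟩ := huv
  have hu'' : u = 2 * u' := by linarith
  have h9 : z = (u' : 𝓞 K) := by
    apply RingOfIntegers.ext
    apply e.σ.injective
    rw [hu1, hu'']
    simp
  rw [h9] at h4
  exact hC K P P' s t hst l hl u' h4

end Pool.Agent.W627.LT
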