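import Pool.Agent.W627.LT.Stm
import Pool.Agent.H343R2.EH.Defs

set_option autoImplicit false

namespace Pool.Agent.W627.LT

open Finset Filter NumberField Pool.Agent.H38R2.CG
open scoped Classical

theorem chi_vals (D : ℤ) (n : ℕ) (_hn : 1 ≤ n) : chi D n = 0 ∨ chi D n = 1 ∨ chi D n = -1 := by
  have h2 : chi2 D = 0 ∨ chi2 D = 1 ∨ chi2 D = -1 := by
    unfold chi2
    split_ifs <;> simp
  have h3 : ∀ k : ℕ, chi2 D ^ k = 0 ∨ chi2 D ^ k = 1 ∨ chi2 D ^ k = -1 := by
    intro k
    rcases h2 with h | h | h
    · rw [h]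
      rcases Nat.eq_zero_or_pos k with hk | hk
      · subst hk; simp
      · left; exact zero_pow hk.ne'
    · rw [h]; simp
    · rw [h]
      rcases neg_one_pow_eq_or ℤ k with hk | hk
      · rw [hk]; simp
      · rw [hk]; simp
  unfold chi
  rcases h3 (padicValNat 2 n) with h | h | h <;>
    rcases jacobiSym.trichotomy D (n / 2 ^ padicValNat 2 n) with h' | h' | h' <;>
    rw [h, h'] <;> simp

theorem neg_card (hKR : P_KR) (D : ℕ) (hD : IsFund D) : ∃ (N : Finset (ZMod D)),
    2 * N.card = Nat.totient D ∧ ∀ r ∈ N, (r.val.Coprime D ∧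
      ∀ n : ℕ, 1 ≤ n → (n : ZMod D) = r → chi D n = -1) := by
  obtain ⟨χ, hχ1, hχ⟩ := hKR D hD
  have hD1 : 1 < D := hD.1
  haveI : NeZero D := ⟨by omega⟩
  have hval : ∀ r : ZMod D, ∃ n : ℕ, 1 ≤ n ∧ (n : ZMod D) = r := by
    intro r
    refine ⟨r.val + D, by omega, ?_⟩
    simp
  have hv : ∀ r : ZMod D, χ r = 0 ∨ χ r = 1 ∨ χ r = -1 := by
    intro r
    obtain ⟨n, hn, rfl⟩ := hval r
    rw [hχ n hn]
    rcases chi_vals D n hn with h | h | h <;> rw [h] <;> simp
  have hsum : ∑ r : ZMod D, χ r = 0 := MulChar.sum_eq_zero_of_ne_one hχ1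
  set N := (Finset.univ : Finset (ZMod D)).filter (fun r => χ r = -1) with hN
  set P := (Finset.univ : Finset (ZMod D)).filter (fun r => χ r = 1) with hP
  have hne : (1 : ℂ) ≠ -1 := by norm_num
  have hne0 : (1 : ℂ) ≠ 0 := one_ne_zero
  have h1 : ∑ r : ZMod D, χ r = (P.card : ℂ) - N.card := by
    have : ∀ r : ZMod D, χ r = (if χ r = 1 then (1 : ℂ) else 0) - (if χ r = -1 then 1 else 0) := by
      intro r
      rcases hv r with h | h | h <;> rw [h] <;> norm_num
    rw [Finset.sum_congr rfl fun r _ => this r, Finset.sum_sub_distrib, Finset.sum_boole,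
      Finset.sum_boole]
  have h2 : P.card = N.card := by
    rw [hsum] at h1
    have : (P.card : ℂ) = N.card := (sub_eq_zero.mp h1.symm)
    exact_mod_cast this
  have h3 : P.card + N.card = Nat.totient D := by
    have hdisj : Disjoint P N := by
      rw [Finset.disjoint_filter]
      intro r _ h h'
      rw [h] at h'
      exact hne h'
    rw [← Finset.card_union_of_disjoint hdisj, ← ZMod.card_units_eq_totient]
    have h4 : P ∪ N = (Finset.univ : Finset (ZMod D)).filter (fun r => IsUnit r) := by
      ext r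
      simp only [hP, hN, Finset.mem_union, Finset.mem_filter, Finset.mem_univ, true_and]
      constructor
      · intro h
        by_contra hu
        have := χ.map_nonunit hu
        rcases h with h | h <;> rw [this] at h
        · exact hne0 h.symm
        · norm_num at h
      · intro h
        rcases hv r with h' | h' | h'
        · exfalso
          exact (h.map χ).ne_zero h'
        · exact Or.inl h'
        · exact Or.inr h'
    rw [h4]
    rw [← Finset.card_univ]
    symm
    refine Finset.card_bij (fun u _ => (u : ZMod D)) ?_ ?_ ?_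
    · intro u _
      simp
    · intro u _ v _ h
      exact Units.ext h
    · intro r hr
      have hr' : IsUnit r := (Finset.mem_filter.mp hr).2
      exact ⟨hr'.unit, Finset.mem_univ _, rfl⟩
  refine ⟨N, by omega, ?_⟩
  intro r hr
  have hr' : χ r = -1 := (Finset.mem_filter.mp hr).2
  constructor
  · have hu : IsUnit r := by
      by_contra hu
      have := χ.map_nonunit hu
      rw [hr'] at this
      norm_num at this
    have := (ZMod.isUnit_iff_coprime r.val D).mp (by rwa [ZMod.natCast_zmod_val])
    exact this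
  · intro n hn hnr
    have h5 := hχ n hn
    rw [hnr, hr'] at h5
    have h6 : ((chi D n : ℤ) : ℂ) = ((-1 : ℤ) : ℂ) := by rw [← h5]; norm_num
    exact_mod_cast h6

end Pool.Agent.W627.LT
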